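import Pool.Agent.H656.PlanePart

/-!
# MP_1e7707_gt: partitions of the plane (of `ℝⁿ`, `n ≥ 2`) into continua and families of curves

Theorem of ZFC. Let `𝒢` be a partition of `ℝⁿ`, `n ≥ 2`, into continua, and let `γ_s : ℝ → ℝⁿ`, `s ∈ S`, be a
family of at least `𝔠` injective curves, none of them contained in one member (for example `𝔠` lines, or
one curve repeated `𝔠` times). Suppose that all but countably many members `G` are single points, or
separate the space, or have an interior point, or are such that for all but countably many `s` the set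
`γ_s⁻¹(G)` has at most countably many components. Then `𝒢` has exactly continuum many members.

Proof. Suppose `|𝒢| < 𝔠`. The members which separate the space or have an interior point are countable
in number (see `Pool.Agent.H656.PlanePart.countable_exceptional`). For one curve: the countably many members
with uncountably many components, and the countably many nondegenerate components of the other members,
leave a Borel set on the curve which has fewer than `𝔠` points, so it is
countable, and the line would be a countable union of disjoint proper closed sets, which is impossible by Baire's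
theorem (Sierpiński). For a family: the members with countably many bad `s` have fewer than `𝔠` bad `s` together.
-/

set_option autoImplicit false

namespace Pool.Agent.Results.MP_1e7707_gt.CurveFamily

open Cardinal

/-- a partition of `ℝⁿ`: pairwise disjoint sets which cover the space -/
structure IsPartition {n : ℕ} (𝒢 : Set (Set (EuclideanSpace ℝ (Fin n)))) : Prop where
  disjoint : ∀ G ∈ 𝒢, ∀ G' ∈ 𝒢, G ≠ G' → Disjoint G G'
  cover : ∀ x : EuclideanSpace ℝ (Fin n), ∃ G ∈ 𝒢, x ∈ G

/-- a continuum: nonempty, compact and connected (single points are allowed) -/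
def IsContinuum {n : ℕ} (G : Set (EuclideanSpace ℝ (Fin n))) : Prop := IsCompact G ∧ IsConnected G

/-- an injective curve `ℝ → ℝⁿ` which is not contained in one member -/
structure IsTestCurve {n : ℕ} (𝒢 : Set (Set (EuclideanSpace ℝ (Fin n)))) (γ : ℝ → EuclideanSpace ℝ (Fin n)) : Prop where
  continuous : Continuous γ
  injective : Function.Injective γ
  not_subset : ∀ G ∈ 𝒢, ¬ Set.range γ ⊆ G

/-- the parameter set `γ⁻¹(G)` has at most countably many connected components -/
def FewComponents {n : ℕ} (γ : ℝ → EuclideanSpace ℝ (Fin n)) (G : Set (EuclideanSpace ℝ (Fin n))) : Prop :=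
  ((fun t => connectedComponentIn (γ ⁻¹' G) t) '' (γ ⁻¹' G)).Countable

/-- the tame members: single points, members which separate the space, members with an interior point, and members
for which all but countably many of the curves have countably many components in `G` -/
def Tame {n : ℕ} {S : Type} (γ : S → ℝ → EuclideanSpace ℝ (Fin n)) (G : Set (EuclideanSpace ℝ (Fin n))) : Prop :=
  G.Subsingleton ∨ ¬ IsConnected Gᶜ ∨ (interior G).Nonempty ∨ {s | ¬ FewComponents (γ s) G}.Countable

lemma rank_lt {n : ℕ} (hn : 2 ≤ n) : 1 < Module.rank ℝ (EuclideanSpace ℝ (Fin n)) := by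
  rw [← Module.finrank_eq_rank, finrank_euclideanSpace_fin]
  exact_mod_cast hn

lemma mk_le {n : ℕ} (𝒢 : Set (Set (EuclideanSpace ℝ (Fin n)))) (h𝒢 : IsPartition 𝒢)
    (hne : ∀ G : 𝒢, (G.1).Nonempty) : #𝒢 ≤ 𝔠 := by
  choose f hf using hne
  have hinj : Function.Injective f := by
    intro G G' h
    by_contra hne
    have hd := h𝒢.disjoint G.1 G.2 G'.1 G'.2 (fun h' => hne (Subtype.ext h'))
    exact Set.disjoint_left.1 hd (hf G) (h ▸ hf G')
  have h1 : #𝒢 ≤ #(EuclideanSpace ℝ (Fin n)) := Cardinal.mk_le_of_injective hinj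
  have h3 : #(EuclideanSpace ℝ (Fin n)) ≤ 𝔠 := by
    have h4 : #(EuclideanSpace ℝ (Fin n)) = #(Fin n → ℝ) :=
      Cardinal.mk_congr (EuclideanSpace.equiv (Fin n) ℝ).toEquiv
    rw [h4]
    have h5 : #(Fin n → ℝ) ≤ #(ℕ → ℝ) := by
      apply Cardinal.mk_le_of_injective (f := fun (v : Fin n → ℝ) (k : ℕ) => if h : k < n then v ⟨k, h⟩ else 0)
      intro v w hvw
      funext i
      have := congrFun hvw i.1
      simpa using this
    have h6 : #(ℕ → ℝ) = 𝔠 := by simp [Cardinal.mk_real]
    rwa [h6] at h5
  exact h1.trans h3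

theorem result (n : ℕ) (hn : 2 ≤ n) (𝒢 : Set (Set (EuclideanSpace ℝ (Fin n)))) (h𝒢 : IsPartition 𝒢)
    (hc : ∀ G ∈ 𝒢, IsContinuum G)
    (S : Type) (hS : 𝔠 ≤ #S) (γ : S → ℝ → EuclideanSpace ℝ (Fin n)) (hγ : ∀ s, IsTestCurve 𝒢 (γ s))
    (htame : {G ∈ 𝒢 | ¬ Tame γ G}.Countable) :
    #𝒢 = 𝔠 := by
  refine le_antisymm (mk_le 𝒢 h𝒢 (fun G => (hc G.1 G.2).2.nonempty)) ?_
  by_contra hcard
  apply Pool.Agent.H656.PlanePart.curves (rank_lt hn) 𝒢 (fun G hG => (hc G hG).1) (fun G hG => (hc G hG).2)
    h𝒢.disjoint h𝒢.cover (not_le.1 hcard) S hS γ (fun s => (hγ s).continuous) (fun s => (hγ s).injective)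
    (fun s => (hγ s).not_subset)
  refine htame.mono ?_
  rintro G ⟨hG, ⟨h1, h2, h3⟩, h4⟩
  refine ⟨hG, ?_⟩
  rintro (h5 | h5 | h5 | h5)
  · exact Set.not_nontrivial_iff.2 h5 h1
  · exact h5 h2
  · rw [h3] at h5
    exact Set.not_nonempty_empty h5
  · exact h4 h5

end Pool.Agent.Results.MP_1e7707_gt.CurveFamily
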