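import Pool.Agent.H656.PlanePart

/-!
# MP_1e7707_gt: partitions of the plane (of `ℝⁿ`, `n ≥ 2`) with uncountably many separating or fat members

Theorem of ZFC. A partition of `ℝⁿ`, `n ≥ 2`, into continua such that uncountably many members separate the
space or have an interior point has exactly continuum many members. In other words: in a partition into fewer
than `𝔠` continua all but countably many members have a connected complement and an empty interior.

Proof: for compact `G` let `Ĝ` be the complement of the unbounded component of `Gᶜ`. For two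
members whose filled sets contain the point `x₀`, one filled set is contained in the union of the
bounded complementary components of the other. So the members with `x₀ ∈ Ĝ` form a chain on
which the volume of `Ĝ` is strictly increasing. If the chain is uncountable and has fewer than `𝔠`
members, the set of volumes has continuum many two-sided limit points `z` which are not volumes. The
union `Y_z` of the `Ĝ` of volume `< z` is open and bounded; a member through a
boundary point of `Y_z` lies strictly between the members of the chain of volume `< z` and those of volume `> z`, and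
it is connected, so different `z` give different members, a contradiction. Finally every member which
separates the space or has an interior point has a point of a countable dense set in the interior of `Ĝ`.
-/

set_option autoImplicit false

namespace Pool.Agent.Results.MP_1e7707_gt.Separators

open Cardinal

/-- a partition of `ℝⁿ`: pairwise disjoint sets which cover the space -/
structure IsPartition {n : ℕ} (𝒢 : Set (Set (EuclideanSpace ℝ (Fin n)))) : Prop where
  disjoint : ∀ G ∈ 𝒢, ∀ G' ∈ 𝒢, G ≠ G' → Disjoint G G'
  cover : ∀ x : EuclideanSpace ℝ (Fin n), ∃ G ∈ 𝒢, x ∈ G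

/-- a continuum: nonempty, compact and connected (single points are allowed) -/
def IsContinuum {n : ℕ} (G : Set (EuclideanSpace ℝ (Fin n))) : Prop := IsCompact G ∧ IsConnected G

lemma rank_lt {n : ℕ} (hn : 2 ≤ n) : 1 < Module.rank ℝ (EuclideanSpace ℝ (Fin n)) := by
  rw [← Module.finrank_eq_rank, finrank_euclideanSpace_fin]
  exact_mod_cast hn

lemma mk_le {n : ℕ} (𝒢 : Set (Set (EuclideanSpace ℝ (Fin n)))) (h𝒢 : IsPartition 𝒢)
    (hne : ∀ G : 𝒢, (G.1).Nonempty) : #𝒢 ≤ 𝔠 := by
  choose f hf using hne
  have hinj : Function.Injective f := by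
    intro G G' h
    by_contra hne
    have hd := h𝒢.disjoint G.1 G.2 G'.1 G'.2 (fun h' => hne (Subtype.ext h'))
    exact Set.disjoint_left.1 hd (hf G) (h ▸ hf G')
  have h1 : #𝒢 ≤ #(EuclideanSpace ℝ (Fin n)) := Cardinal.mk_le_of_injective hinj
  have h3 : #(EuclideanSpace ℝ (Fin n)) ≤ 𝔠 := by
    have h4 : #(EuclideanSpace ℝ (Fin n)) = #(Fin n → ℝ) :=
      Cardinal.mk_congr (EuclideanSpace.equiv (Fin n) ℝ).toEquiv
    rw [h4]
    have h5 : #(Fin n → ℝ) ≤ #(ℕ → ℝ) := by
      apply Cardinal.mk_le_of_injective (f := fun (v : Fin n → ℝ) (k : ℕ) => if h : k < n then v ⟨k, h⟩ else 0)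
      intro v w hvw
      funext i
      have := congrFun hvw i.1
      simpa using this
    have h6 : #(ℕ → ℝ) = 𝔠 := by simp [Cardinal.mk_real]
    rwa [h6] at h5
  exact h1.trans h3

theorem result (n : ℕ) (hn : 2 ≤ n) (𝒢 : Set (Set (EuclideanSpace ℝ (Fin n)))) (h𝒢 : IsPartition 𝒢)
    (hc : ∀ G ∈ 𝒢, IsContinuum G)
    (hsep : ¬ {G ∈ 𝒢 | ¬ IsConnected Gᶜ ∨ (interior G).Nonempty}.Countable) :
    #𝒢 = 𝔠 := by
  refine le_antisymm (mk_le 𝒢 h𝒢 (fun G => (hc G.1 G.2).2.nonempty)) ?_
  by_contra hcard
  apply hsep
  have h := Pool.Agent.H656.PlanePart.countable_exceptional (rank_lt hn) 𝒢 (fun G hG => (hc G hG).2)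
    h𝒢.disjoint h𝒢.cover (not_le.1 hcard)
  refine h.mono ?_
  rintro G ⟨hG, hG'⟩
  refine ⟨hG, (hc G hG).1, ?_⟩
  rintro ⟨h1, h2⟩
  rcases hG' with h3 | h3
  · exact h3 h1
  · rw [h2] at h3
    exact Set.not_nonempty_empty h3

end Pool.Agent.Results.MP_1e7707_gt.Separators
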